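import Mathlib

/-!
MP_6bfe6b_gt, Q1 (true): every mec functor (indeed every monomorphic functor) on compacta which
preserves finite preimages preserves preimages.
-/

namespace Pool.Agent.Results.MP_6bfe6b_gt.FinitePreimages

open CategoryTheory Set Topology

universe u

/-- `F` is monomorphic: it preserves injectivity of maps. -/
def Monomorphic (F : CompHaus.{u} ⥤ CompHaus.{u}) : Prop :=
  ∀ ⦃X Y : CompHaus.{u}⦄ (f : X ⟶ Y), Function.Injective f → Function.Injective (F.map f)

/-- `F` is epimorphic: it preserves surjectivity of maps. -/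
def Epimorphic (F : CompHaus.{u} ⥤ CompHaus.{u}) : Prop :=
  ∀ ⦃X Y : CompHaus.{u}⦄ (f : X ⟶ Y), Function.Surjective f → Function.Surjective (F.map f)

/-- `F` is continuous: it preserves limits of inverse spectra of compacta (indexed by directed
posets). -/
def ContinuousFunctor (F : CompHaus.{u} ⥤ CompHaus.{u}) : Prop :=
  ∀ (I : Type u) [PartialOrder I] [Nonempty I] [IsDirectedOrder I],
    Limits.PreservesLimitsOfShape Iᵒᵖ F

/-- mec functors. -/
structure Mec (F : CompHaus.{u} ⥤ CompHaus.{u}) : Prop where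
  mono : Monomorphic F
  epi : Epimorphic F
  cont : ContinuousFunctor F

/-- Bicommutativity of the commutative square `f ∘ pX = pY ∘ f'`:
`f' (pX⁻¹ (x)) = pY⁻¹ (f x)` for all `x`. -/
def Bicommutative {X Y X' Y' : CompHaus.{u}} (f' : X' ⟶ Y') (f : X ⟶ Y) (pX : X' ⟶ X)
    (pY : Y' ⟶ Y) : Prop :=
  ∀ x : X, f' '' (pX ⁻¹' {x}) = pY ⁻¹' {f x}

/-- `F` preserves preimages. -/
def PreservesPreimages (F : CompHaus.{u} ⥤ CompHaus.{u}) : Prop :=
  ∀ ⦃X Y X' Y' : CompHaus.{u}⦄ (f' : X' ⟶ Y') (f : X ⟶ Y) (pX : X' ⟶ X) (pY : Y' ⟶ Y),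
    pX ≫ f = f' ≫ pY → Function.Injective f → Function.Injective f' →
    Bicommutative f' f pX pY → Bicommutative (F.map f') (F.map f) (F.map pX) (F.map pY)

/-- `F` preserves finite preimages: as before, for finite `X`. -/
def PreservesFinitePreimages (F : CompHaus.{u} ⥤ CompHaus.{u}) : Prop :=
  ∀ ⦃X Y X' Y' : CompHaus.{u}⦄ (f' : X' ⟶ Y') (f : X ⟶ Y) (pX : X' ⟶ X) (pY : Y' ⟶ Y),
    Finite X → pX ≫ f = f' ≫ pY → Function.Injective f → Function.Injective f' →
    Bicommutative f' f pX pY → Bicommutative (F.map f') (F.map f) (F.map pX) (F.map pY)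

/-- Functions `Y → [0,1]` vanishing on `Z`. -/
def Van (Y : CompHaus.{u}) (Z : Set Y) : Type u := {φ : C(Y, unitInterval) // ∀ z ∈ Z, φ z = 0}

/-- A cube. -/
def Cube (Y : CompHaus.{u}) (Z : Set Y) : CompHaus.{u} :=
  CompHaus.of (Van Y Z → unitInterval)

/-- The evaluation map to the cube. -/
def ev (Y : CompHaus.{u}) (Z : Set Y) : Y ⟶ Cube Y Z :=
  CompHausLike.ofHom _ ⟨fun y φ => φ.1 y, continuous_pi fun φ => φ.1.continuous⟩

/-- The origin of the cube. -/
def zeroPt (Y : CompHaus.{u}) (Z : Set Y) : CompHaus.of PUnit.{u+1} ⟶ Cube Y Z :=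
  CompHausLike.ofHom _ ⟨fun _ _ => 0, continuous_const⟩

lemma exists_sep {Y : Type u} [TopologicalSpace Y] [CompactSpace Y] [T2Space Y] {Z : Set Y}
    (hZ : IsClosed Z) {y : Y} (hy : y ∉ Z) :
    ∃ φ : Y → unitInterval, Continuous φ ∧ φ y = 0 ∧ EqOn φ 1 Z :=
  CompletelyRegularSpace.completely_regular y Z hZ hy

lemma ev_eq_zero_iff {Y : CompHaus.{u}} {Z : Set Y} (hZ : IsClosed Z) (y : Y) :
    ev Y Z y = zeroPt Y Z PUnit.unit ↔ y ∈ Z := by
  constructor
  · intro h
    by_contra hy
    obtain ⟨φ, hφ, h1, h2⟩ := exists_sep hZ hy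
    let ψ : Van Y Z := ⟨⟨fun t => unitInterval.symm (φ t), unitInterval.continuous_symm.comp hφ⟩, by
      intro z hz
      have : φ z = 1 := h2 hz
      simp [this]⟩
    have h3 : ψ.1 y = 0 := congrFun h ψ
    have h4 : ψ.1 y = unitInterval.symm (φ y) := rfl
    rw [h4, h1] at h3
    simp at h3
  · intro hy
    funext φ
    exact φ.2 y hy

/-- Q1 of MP_6bfe6b_gt: a monomorphic functor (in particular, a mec functor) on compacta which
preserves finite preimages preserves preimages. -/
theorem preserves_of_monomorphic (F : CompHaus.{u} ⥤ CompHaus.{u}) (hF : Monomorphic F)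
    (h : PreservesFinitePreimages F) : PreservesPreimages F := by
  intro X Y X' Y' f' f pX pY hcomm hf hf' hbi
  have hcomm' : ∀ s, f (pX s) = pY (f' s) := fun s => ConcreteCategory.congr_hom hcomm s
  -- the closed set `Z = f(X)`
  have hZ : IsClosed (range f) := (isCompact_range (ConcreteCategory.hom f).continuous).isClosed
  let q := ev Y (range f)
  let z := zeroPt Y (range f)
  let e : X ⟶ CompHaus.of PUnit.{u+1} := CompHausLike.ofHom _ ⟨fun _ => PUnit.unit, continuous_const⟩
  let e' : X' ⟶ CompHaus.of PUnit.{u+1} := pX ≫ e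
  have hfe : f ≫ q = e ≫ z := by
    ext x
    exact (ev_eq_zero_iff hZ (f x)).2 ⟨x, rfl⟩
  have hc : e' ≫ z = f' ≫ (pY ≫ q) := by
    rw [← Category.assoc f' pY q, ← hcomm, Category.assoc pX f q, hfe]
    exact Category.assoc pX e z
  have hB : Bicommutative f' z e' (pY ≫ q) := by
    intro x
    ext t
    constructor
    · rintro ⟨s, -, rfl⟩
      have := ConcreteCategory.congr_hom hc s
      exact this.symm
    · intro ht
      have h1 : pY t ∈ range f := (ev_eq_zero_iff hZ (pY t)).1 ht
      obtain ⟨x', hx'⟩ := h1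
      have h2 : t ∈ pY ⁻¹' {f x'} := hx'.symm
      rw [← hbi x'] at h2
      obtain ⟨s, -, rfl⟩ := h2
      exact ⟨s, rfl, rfl⟩
  have hFB := h f' z e' (pY ≫ q) (by infer_instance) hc (fun a b _ => rfl) hf' hB
  -- the conclusion
  intro x
  have hFcomm : ∀ s, F.map f (F.map pX s) = F.map pY (F.map f' s) := by
    intro s
    have h1 : F.map pX ≫ F.map f = F.map f' ≫ F.map pY := by
      rw [← F.map_comp, ← F.map_comp, hcomm]
    exact ConcreteCategory.congr_hom h1 s
  ext t
  constructor
  · rintro ⟨s, hs, rfl⟩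
    have hs' : F.map pX s = x := hs
    change F.map pY (F.map f' s) = F.map f x
    rw [← hFcomm, hs']
  · intro ht
    have ht' : F.map pY t = F.map f x := ht
    have h1 : F.map (pY ≫ q) t = F.map z (F.map e x) := by
      have h2 : F.map (pY ≫ q) t = F.map q (F.map pY t) := by
        rw [F.map_comp]; rfl
      have h3 : F.map q (F.map f x) = F.map z (F.map e x) := by
        have h4 : F.map f ≫ F.map q = F.map e ≫ F.map z := by
          rw [← F.map_comp, ← F.map_comp, hfe]
        exact ConcreteCategory.congr_hom h4 x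
      rw [h2, ht', h3]
    have h5 : t ∈ (F.map (pY ≫ q)) ⁻¹' {F.map z (F.map e x)} := h1
    rw [← hFB (F.map e x)] at h5
    obtain ⟨s, -, rfl⟩ := h5
    refine ⟨s, ?_, rfl⟩
    have h6 : F.map f (F.map pX s) = F.map f x := (hFcomm s).trans ht'
    exact hF f hf h6

/-- Q1 of MP_6bfe6b_gt is true. -/
theorem result : ∀ F : CompHaus.{u} ⥤ CompHaus.{u}, Mec F →
    PreservesFinitePreimages F → PreservesPreimages F :=
  fun F hF => preserves_of_monomorphic F hF.mono

end Pool.Agent.Results.MP_6bfe6b_gt.FinitePreimages
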